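import Pool.Agent.U3.MR.Main

/-!
# Murre's condition (D) for direct summands

Chow motives `(X, p)` with an action of a finite group, which are direct summands of finite sums of
motives `M_t = (Y t, q t)(-r t)` with Chow-Kunneth decompositions, all of whose summands except
those in one common degree have nilpotent ideals of homologically trivial endomorphisms.
-/

set_option autoImplicit false

universe u v w

namespace Pool.Agent.Results.MP_583472_ag.DirectSummands

open Pool.Agent.H914 Pool.Agent.H914.VarClass Pool.Agent.W492.BB Pool.Agent.TH133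
  Pool.Agent.U3.MQ Pool.Agent.U3.MR

/-- **Murre's (D) for direct summands.** Let the finite group `G` act on the motive `(X, p)`, and let
the identity of `(X, p)` factor through the sum of the motives `(Y t, q t)(-r t)` with Chow-Kunneth
decompositions `π t`. Assume that for one `m ≤ 2 dim X` all summands `h^j(Y t, q t) = (Y t, π t j)`
with `j + 2 r t ≠ m` satisfy `NilMotive`.

* `(X, p)` has a Chow-Kunneth decomposition `τ` which commutes with `G`, such that `h^i(X, p)` has no
  cycles (no homologically trivial cycles) of codimension `l` whenever all `h^(i - 2 r t)(Y t, q t)`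
  have no cycles (no homologically trivial cycles) of codimension `l - r t`; and `F^1 CH^l` is the
  kernel of the cycle class map for `τ` if this holds for all `π t` in codimension `l - r t`.
* In the last case `F^1 CH^l` is the kernel of the cycle class map for every Chow-Kunneth
  decomposition of `(X, p)`, if `2 l ≤ m` or the direct summands of `(X, p)` without cohomology have
  no cycles of codimension `l`. -/
theorem result {k : Type u} [Field k] {𝒱 : VarClass k} {C : TheoryData.{u, v, 0} 𝒱 ℚ}
    [IsChowProj C] {K : Type w} [Field K] {H : WeilTheoryData.{u, v, w} C K} [IsWeilProj H]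
    {G : Type} [Group G] [Finite G] {X : 𝒱.Obj} {p : C.A (X.prod X)} {ρ : G → C.A (X.prod X)}
    (hρ : IsMotAction C p ρ) {T : Type} [Fintype T] {Y : T → 𝒱.Obj}
    {q : ∀ t, C.A ((Y t).prod (Y t))} {r : T → ℤ} {a : ∀ t, C.A (X.prod (Y t))}
    {b : ∀ t, C.A ((Y t).prod X)} (hs : IsRetract C p q r a b)
    {π : ∀ t, ℕ → C.A ((Y t).prod (Y t))} (hπ : ∀ t, IsMotCK H (q t) (π t)) {m : ℕ}
    (hm : m ≤ 2 * X.dim) (hnil : ∀ t (j : ℕ), (j : ℤ) ≠ m - 2 * r t → NilMotive H (π t j)) :
    (∃ τ : ℕ → C.A (X.prod X), IsMotCK H p τ ∧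
      (∀ g i, C.comp (ρ g) (τ i) = C.comp (τ i) (ρ g)) ∧
      (∀ (i : ℕ) (l : ℤ), (∀ t (j : ℕ), (j : ℤ) = i - 2 * r t → NoCycles C (π t j) (l - r t)) →
        NoCycles C (τ i) l) ∧
      (∀ (i : ℕ) (l : ℤ), (∀ t (j : ℕ), (j : ℤ) = i - 2 * r t →
        NoHomCycles H (π t j) (l - r t)) → NoHomCycles H (τ i) l) ∧
      ∀ l : ℤ, (∀ t, SatisfiesD H (q t) (π t) (l - r t)) → SatisfiesD H p τ l) ∧
    ∀ l : ℤ, (∀ t, SatisfiesD H (q t) (π t) (l - r t)) →
      (2 * l ≤ m ∨ NoPhantomCycles H p l) →
      ∀ τ : ℕ → C.A (X.prod X), IsMotCK H p τ → SatisfiesD H p τ l :=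
  summands hρ hs hπ hm hnil

end Pool.Agent.Results.MP_583472_ag.DirectSummands
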