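import Mathlib
import Pool.Agent.U606.MD.Main
import Pool.Agent.U606.MD.Ghc

/-!
# Murre's conjecture (D) for motives of abelian type of Hodge level at most three

Let `X` be a complex abelian variety (`AV`, up to isogeny) and `M = (X, p)` a direct summand of the
Chow motive of `X`, for example `M = h(V)`, where `V` is a smooth projective variety which is the
image of `X`, or the image of a product of curves of positive genus such that the product of their
Jacobians is `X`. Let `M = ⊕ M_m`, `M_m = (X, P m)`, be **any** Chow–Künneth decomposition of `M`
(`M_m` has the homology of `M` in degree `m`; if `M = h(V)`, `dim V = d`, then `M_m` is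
`h^(2 d - m)(V)`, and the cycles of dimension `i` are the cycles of codimension `d - i`). Murre's
conjecture (D) says that the subgroup `F^1 CH_i(M)` of `CH_i(M)` consists of the homologically trivial
cycles.

**Theorem.** (D) holds for the cycles of dimension `i` on `M` and for every Chow–Künneth
decomposition of `M` in the following two cases:

(1) `H^m(M) = 0` for all `m` with `i + 2 ≤ m ≤ 2 i`, and `X` is any abelian variety. In particular
this is the case for `i ≤ 1`, without any hypothesis on `M`: (D) holds for the cycles of dimension at
most one on all motives of abelian type.

(2) `X` belongs to one of the classes (a), (b) below, and `h^(s, t)(M) = 0` for all `s, t` with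
`s + t ≤ 2 i` and `max (s, t) ≥ i + 2`. For `M = h(V)` and the cycles of codimension two, this is the
condition `h^(k, 0)(V) = 0` for all `k ≥ 4`; for fourfolds it is `p_g = 0`.

In particular, if `X` belongs to one of the classes (a), (b), and the Hodge level of `M` is at most
three (`h^(s, t)(M) = 0` for `|s - t| ≥ 4`), then (D) holds for the cycles of all dimensions and all
Chow–Künneth decompositions. This contains all varieties `V` of dimension at most three, and
varieties of every dimension.

The classes (a) and (b) (`IsGood` in `Pool.Agent.U606.MD.Defs`) are those of the starting file
`Pool.Agent.Results.MP_1c689d_ag.AbelianDominated`, where `P` is the class of the simple abelian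
varieties of any dimension with small or generic period fields (`Pool.Agent.N994.PG.Stm`), which is
described in that file:

(a) all simple factors of `X` are in `P` or are factors of an abelian variety of dimension at most
three;

(b) there are finitely many CM types `T k`, divided into independent blocks, such that for each block
all CM types of the CM fields in this block are conjugate, or the total dimension of the block is at
most three, or the block consists of all CM types of a Galois CM field of degree at most six; and
each simple factor of `X` is in `P`, or is a factor of one of the abelian varieties with the CM types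
`T k`, or has no complex multiplication and belongs to one of the classes in `Typ` (of any
dimension), where an imaginary quadratic field which acts with two different multiplicities on the
tangent space must be the field of an elliptic curve of the first kind (fourfolds with such an
action are excluded).

The structures `ChowTheory` (`Pool.Agent.N178.BL.Defs`) and `Projectors` (`Pool.Agent.N178.MU.Defs`)
collect the known properties of the Chow groups of complex abelian varieties which are used: the
formal properties of correspondences; Kimura's theorem that homologically trivial endomorphisms of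
the motive are nilpotent; the semisimplicity of the category of motives of abelian varieties modulo
homological equivalence (Jannsen, Lieberman); the algebraic classes are a system `Sys` (Lefschetz,
Markman); the algebraicity of the isomorphisms `H^n(Y, ℚ) ≅ H_n(Y, ℚ)` given by a polarization
(Lieberman); the projectors of Deninger and Murre; the vanishing of the cycles of codimension at most
one on `h^n(Y)` for large `n`, and of the homologically trivial divisors on `h^2(Y)` (Beauville,
Künnemann).

The proof. For `m ≤ i + 1` the part `M_m` is a direct summand of `h_m(X)`, by nilpotence. For
`i + 2 ≤ m ≤ 2 i` the generalized Hodge conjecture for `X` and nilpotence show that `M_m` is a direct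
summand of a sum of motives `h_n(Y)(k)` with `n + 2 k = m` and `n + k ≤ i + 1`
(`Pool.Agent.N178.MU.vanish`). The cycles of dimension `i - k` on `h_n(Y)` are cycles of codimension at
most one on `h^n(Y)`; they vanish if `n < 2 (i - k)`, and if `n = 2 (i - k)` they are determined by
their cohomology class.
-/

namespace Pool.Agent.Results.MP_583472_ag.HodgeLevelThree

open Module Pool.Agent.Y90
open Pool.Agent.N178.BL (ChowTheory)
open Pool.Agent.N178.MU (Projectors IsChowKunneth HodgeZero F)
open Pool.Agent.U606.MD (IsGood)

/-- Murre's conjecture (D) for the cycles of dimension `i` on the motive `M = (X, p)` and the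
Chow–Künneth decomposition `P` of `M`: the group `F^1 CH_i(M)` consists of the homologically trivial
cycles of dimension `i` on `M`. The cycles on `X` are the correspondences from the point `O` to `X`. -/
def MurreD {C : ChowTheory} (O : AV) {X : AV} (p : C.Co X X) (P : ℕ → C.Co X X) (i : ℤ) : Prop :=
  ∀ z : C.Co O X, C.IsDeg i z → C.o p z = z → (F p P i 1 z ↔ ∀ ω, C.pb z ω = 0)

/-- **Murre's conjecture (D)** for the direct summands `M = (X, p)` of the Chow motives of abelian
varieties and every Chow–Künneth decomposition `P` of `M`: for the cycles of dimension `i` if `M` has
no cohomology in the degrees between `i + 2` and `2 i` (in particular for `i ≤ 1`), or if `X` is in the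
classes (a), (b) and `h^(s, t)(M) = 0` for `s + t ≤ 2 i`, `max (s, t) ≥ i + 2`; for all cycles if `X` is
in the classes (a), (b) and the Hodge level of `M` is at most three. -/
theorem result (C : ChowTheory) (K : Projectors C) (O : AV) (hO : finrank ℚ O.H = 0) (X : AV)
    (p : C.Co X X) (_hp : C.IsMotive p) (P : ℕ → C.Co X X) (hP : IsChowKunneth p P) :
    (∀ i : ℤ,
      (∀ s t : ℕ, i + 2 ≤ s + t → (s + t : ℤ) ≤ 2 * i → HodgeZero p s t) ∨
      (IsGood X ∧
        ∀ s t : ℕ, (s + t : ℤ) ≤ 2 * i → i + 2 ≤ max (s : ℤ) t → HodgeZero p s t) →
      MurreD O p P i) ∧
    (∀ i : ℤ, i ≤ 1 → MurreD O p P i) ∧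
    (IsGood X → (∀ s t : ℕ, 4 ≤ |(s : ℤ) - t| → HodgeZero p s t) → ∀ i : ℤ, MurreD O p P i) := by
  have h1 : ∀ i : ℤ,
      (∀ s t : ℕ, i + 2 ≤ s + t → (s + t : ℤ) ≤ 2 * i → HodgeZero p s t) ∨
      (IsGood X ∧
        ∀ s t : ℕ, (s + t : ℤ) ≤ 2 * i → i + 2 ≤ max (s : ℤ) t → HodgeZero p s t) →
      MurreD O p P i := by
    rintro i (h | ⟨hX, h⟩)
    · exact Pool.Agent.U606.MD.murreD_gap K hO hP h
    · exact Pool.Agent.U606.MD.murreD_ghc K (Pool.Agent.U606.MD.ghc hX) hO hP fun s t hst h2 =>
        h s t hst (le_max_iff.2 h2)
  refine ⟨h1, fun i hi => h1 i (Or.inl fun s t h2 h3 => ?_), fun hX h i =>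
    h1 i (Or.inr ⟨hX, fun s t h2 h3 => h s t ?_⟩)⟩
  · exfalso
    omega
  · rw [le_abs]
    rcases le_max_iff.1 h3 with h4 | h4 <;> omega

end Pool.Agent.Results.MP_583472_ag.HodgeLevelThree
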