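import Pool.Agent.U226.FX.Pure

/-!
# Murre's conjecture (D) for products with the powers of a pure motive

Let `M` be a Chow motive over `ℂ` whose cohomology `H (M)` is concentrated in one degree, for example a
summand `(X, π^j)` of a Chow–Künneth decomposition of a variety (or, more generally, whose cohomology is
concentrated in even or in odd degrees); let `b > 0` be the dimension of `H (M)`, and let `B` be an
ARBITRARY Chow motive. The motives `E_n = (M ⊗ M^∨)^⊗n` are pure of weight `0`,
`Hom (1, E_n) = End (M^⊗n)`. For a weight zero motive `P` (a summand `(Y, π^(2i), i)`, `Hom (1, P) =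
π^(2i) CH^i (Y)`) the conjecture (D) of Murre says that `Hom (1, P)_hom = 0`. (`F^1 = ker (cl)` for `X` means that
this holds for all `(X, π^(2i), i)`, together with the vanishing of `π^j CH^i (X)_hom` for `j > 2i`.) So for
`B = 1` or `B = (X, π^(2i), i)` the question predicts that there are no homologically trivial classes on
`B ⊗ E_n`. Let `δ (n) = dim Hom (1, B ⊗ E_n)_hom`, a number or infinity, and `ρ_B (n)`, `ρ (n)` the
(finite) ranks of `Hom (1, B ⊗ E_n)`, `Hom (1, E_n)` modulo numerical equivalence.

Theorem.
(1) `δ (n) / ρ (n)` and `ρ_B (n) / ρ (n)` converge for `n → ∞`; the limits `N` and `d` are natural numbers or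
infinity, `d ≤ dim H (B)` if `B` satisfies the sign conjecture. `N = 0` if and only if
`Hom (1, B ⊗ E_n)_hom = 0` for all `n`, for example (`B = (X, π^(2i), i)`, `n = 0`) `π^(2i) CH^i (X)_hom = 0`.
(2) If `N` is a number `k` for ONE motive `B` with `d > 0`, for example for `B = 1`, that is, if
`dim End (M^⊗n)_hom ≤ c ρ (n)` for infinitely many `n` and some constant `c`, then all homologically trivial
endomorphisms `y` of all `M^⊗n` satisfy `y ^ (k + 1) = 0`, and **`M` is finite-dimensional in the
strong sense: `Λ^(b + 1) M = 0` if the degree is even, `Sym^(b + 1) M = 0` if it is odd.**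
(3) If `B ⊗ E_m` has a nonzero homologically trivial class then for ALL `n ≥ 128 (m + 1) ^ 2 b ^ (4 m + 12)`
we have `δ (n) ≥ ρ (n) / 2` and `δ (n) ≥ b ^ (2 n) / (2 (n + 1) ^ (b ^ 2))`, where `b ^ (2 n)` is the dimension
of the cohomology of `E_n`. One inequality `2 δ (n) < ρ (n)` implies the conjecture for `B ⊗ E_m`.

So a failure of Murre's conjecture (D) for one `B ⊗ E_m` is never isolated and never small: it forces
exponentially many independent homologically trivial classes on weight zero motives, for all large `n`.
In contrast to statements on varieties with correspondences of all degrees, only cycles of the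
codimensions of weight zero are counted, so that the statement has content over `ℂ`, where the groups
of homologically trivial cycles are infinite-dimensional. For example let `M = t_2 (S)` be the
transcendental motive of a surface `S` with `p_g > 0`: if `dim End (t_2 (S)^⊗n)_hom ≤ c ρ (n)` for
infinitely many `n` then `t_2 (S)` is finite-dimensional, which is open for general `S` (Bloch's conjecture).
Related: starting result `MP_f4876d_ag.SeparatednessLaw` (correspondences of all degrees, filtrations, powers of
one variety), `MP_32dfd1_ag.EvenLaw` (`h(X)` without odd cohomology, over `ℚ̄`). New: pure motives of the graded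
category, weight zero classes, arbitrary `B`.

The setting. `C` is the usual category of Chow motives over `ℂ` (degree zero correspondences, Tate twists), a
rigid symmetric monoidal pseudo-abelian category, `T = M`, `R` the singular cohomology with its
`ℤ/2`-grading; `R.par T = s` (`s = 1` or `s = -1`) says that the cohomology of `M` is even or odd.
`asym (-s) T n` is the projector to `Λ^n M` (`s = 1`) or `Sym^n M` (`s = -1`).

Idea of the proof. The functor `Y ↦ Hom (1, B ⊗ Y)_hom` is additive, `M ⊗ M^∨` is self-dual, satisfies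
`C⁺` and contains the unit (`b ≠ 0`), so that the law of the values of additive functors (starting library
`N64.AF`) applies. If the limit is a number `k` then `k` numerically trivial morphisms between the `E_n` act as
zero; one multiplies with a class `β` on `B ⊗ E_p` with a dual class and contracts. An endomorphism `y` of
`M^⊗n` gives `y ⊗ 1` on `M^⊗n ⊗ (M^∨)^⊗n = E_n`. The (anti)symmetrizer of degree `b + 1` is a homologically
trivial idempotent.
-/

set_option autoImplicit false

open CategoryTheory MonoidalCategory Module Filter Topology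
open Pool.Agent.Y112.SR Pool.Agent.Y112.KD Pool.Agent.N64.AF Pool.Agent.U226.FX
open scoped ENNReal

namespace Pool.Agent.Results.MP_583472_ag.PureMotiveLaw

universe v u w

/-- The law for the homologically trivial classes on the products of an arbitrary `B` with the powers of
`T ⊗ Tᘁ`, `T` an object with even or odd realisation. -/
theorem result {C : Type u} [Category.{v} C] [Preadditive C] [MonoidalCategory C]
    [MonoidalPreadditive C] [SymmetricCategory C] [RightRigidCategory C]
    [Linear ℚ C] [MonoidalLinear ℚ C] [IsIdempotentComplete C]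
    {K : Type w} [Field K] [IsAlgClosed K] [Algebra ℚ K] (R : SuperRealisation C K)
    (hR : IsReal ℚ R) (T : C) (s : ℚ) (hs : s = 1 ∨ s = -1) (hpar : R.par T = (s : K) • 𝟙 _)
    (hb : 0 < bt R T) (B : C) :
    ∃ N d : ℕ∞, RatioTo ℚ (T ⊗ Tᘁ) (homDim hR B (T ⊗ Tᘁ)) N ∧
      RatioTo ℚ (T ⊗ Tᘁ) (rankSeq ℚ B (T ⊗ Tᘁ)) d ∧
      (N = 0 ↔ ∀ (n : ℕ) (α : 𝟙_ C ⟶ B ⊗ tp (T ⊗ Tᘁ) n), R.H.map α = 0 → α = 0) ∧
      (d = 0 ↔ ∀ (n : ℕ) (α : 𝟙_ C ⟶ B ⊗ tp (T ⊗ Tᘁ) n), NumTriv α) ∧
      (R.CPlus B → d ≤ bt R B) ∧
      (d ≠ 0 → ∀ k : ℕ, N = k →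
        (∀ (n : ℕ) (y : End (tp T n)), R.H.map (y : tp T n ⟶ tp T n) = 0 → y ^ (k + 1) = 0) ∧
        asym (-s) T (bt R T + 1) = 0) ∧
      ∀ (m n : ℕ) (α : 𝟙_ C ⟶ B ⊗ tp (T ⊗ Tᘁ) m), R.H.map α = 0 → α ≠ 0 →
        128 * (m + 1) ^ 2 * bt R T ^ (4 * m + 12) ≤ n →
          (numRank ℚ (tp (T ⊗ Tᘁ) n) : ℕ∞) ≤ 2 * homDim hR B (T ⊗ Tᘁ) n ∧
          ((bt R T ^ (2 * n) : ℕ) : ℕ∞) ≤
            (2 * (n + 1) ^ (bt R T ^ 2) : ℕ) * homDim hR B (T ⊗ Tᘁ) n :=
  pure_law hR hs hpar hb B

end Pool.Agent.Results.MP_583472_ag.PureMotiveLaw
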