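import Pool.Agent.U840.SY.Sum

/-!
# Murre's conjecture (D) for symmetric Chow-Kunneth decompositions

`𝒱` is a class of smooth projective geometrically irreducible varieties over the field `k` closed
under products (for example all of them), `C` the Chow groups with rational coefficients (in the
form of their formal properties, `IsChowProj`), `H` a Weil cohomology theory (`IsWeilProj`), with the
classical fact that correspondences acting as zero on `H^1` act as zero on `Pic^0 ⊗ ℚ`
(`PicardFaithful`).

A Chow-Kunneth decomposition `h(X) = ⊕ h^i(X)`, `n = dim X`, is symmetric (`IsSymmetric`) if there are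
isomorphisms of Chow motives `h^i(X) ≃ h^(2 n - i)(X)(n - i)`. They need not be given by a divisor class.

**Theorem.** (1) For a symmetric Chow-Kunneth decomposition of `X`, `dim X = n`, Murre's conjecture (D),
`F^1 CH^j(X) = CH^j(X)_hom`, is true in the codimensions `j = 0, 1, n - 1, n`: for divisors, one-cycles and
zero-cycles; it is true in all codimensions if `n ≤ 3`. If it is true in the codimensions at most `m ≥ 1`
then also in the dimensions at most `m`. In general (D) in codimension `j` is implied by finitely many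
conditions on the codimensions `j' ≤ min (j, n - j)`: the projectors `π i`, `2 j' ≤ i ≤ n`, act as zero on
`CH^j'(X)_hom`. (For `n = 4` the only condition is that `π 4` acts as zero on `CH^2(X)_hom`.)

(2) If the homologically trivial self-correspondences of `X` of degree zero are nilpotent, for instance if `X` is
finite-dimensional in the sense of Kimura, then (D) in codimension `j` holds for all Chow-Kunneth
decompositions of `X` if it holds for one. So (D) is true for all Chow-Kunneth decompositions of
`X` if moreover `X` has a symmetric one and `n ≤ 3`.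

(3) The class of the varieties with symmetric Chow-Kunneth decompositions contains

* all curves;
* all varieties with a Chow-Kunneth decomposition satisfying motivic hard Lefschetz for a correspondence
  `L` of degree one, such as abelian varieties (Kunnemann);
* all Lefschetz sections and covers `f : X → Y` of varieties `Y` with a Chow-Kunneth decomposition satisfying
  motivic hard Lefschetz for a divisor class `D`: `f^* : H^i(Y) → H^i(X)` is onto for `i < dim X` and
  `f_* [X] = c D^r`, `c ≠ 0`; for instance smooth complete intersections in abelian varieties of ample divisors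
  proportional to `D`, and cyclic covers branched along ample divisors;
* all products of members of the class;
* all varieties whose motive is a symmetric sum of twists of motives of members of the class (`IsTwistSum`):
  projective bundles over members and blow-ups of members along members (Manin).
-/

set_option autoImplicit false

open CategoryTheory AlgebraicGeometry

universe u v w

namespace Pool.Agent.Results.MP_583472_ag.SymmetricDecompositions

open Pool.Agent.H914 Pool.Agent.W492.BB Pool.Agent.TH133 Pool.Agent.Y107 Pool.Agent.Q73.LS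
  Pool.Agent.U840.SY

theorem result {k : Type u} [Field k] {𝒱 : VarClass k} (C : TheoryData.{u, v, 0} 𝒱 ℚ)
    [IsChowProj C] {K : Type w} [Field K] (H : WeilTheoryData.{u, v, w} C K) [IsWeilProj H]
    (hP : PicardFaithful H) :
    -- (1) symmetric decompositions
    (∀ (X : 𝒱.Obj) (π w : ℕ → C.A (X.prod X)), IsCK H X π → IsSymmetric C π w →
      (∀ j : ℕ, j ≤ 1 ∨ X.dim ≤ j + 1 → SatisfiesDIn H π j) ∧
      (X.dim ≤ 3 → ∀ j : ℕ, SatisfiesDIn H π j) ∧
      (∀ m : ℕ, (∀ j : ℕ, 2 ≤ j → j ≤ m → SatisfiesDIn H π j) →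
        ∀ j : ℕ, X.dim ≤ j + m → SatisfiesDIn H π j) ∧
      ∀ j : ℕ, (∀ j' i : ℕ, 2 ≤ j' → j' ≤ j → j + j' ≤ X.dim → 2 * j' ≤ i → i ≤ X.dim →
        ∀ x : C.A X, C.Deg j' x → H.cl x = 0 → C.act (π i) x = 0) → SatisfiesDIn H π j) ∧
    -- (2) all decompositions
    (∀ X : 𝒱.Obj, HomNilpotent H X →
      (∀ π π' : ℕ → C.A (X.prod X), IsCK H X π → IsCK H X π' → ∀ j : ℕ,
        SatisfiesDIn H π j → SatisfiesDIn H π' j) ∧
      (HasSymmetricCK H X → ∀ π : ℕ → C.A (X.prod X), IsCK H X π →
        ∀ j : ℕ, X.dim ≤ 3 ∨ j ≤ 1 ∨ X.dim ≤ j + 1 → SatisfiesDIn H π j)) ∧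
    -- (3) the class of varieties with symmetric decompositions
    (∀ X : 𝒱.Obj, X.dim = 1 → HasSymmetricCK H X) ∧
    (∀ (X : 𝒱.Obj) (L : C.A (X.prod X)), C.Deg ((X.dim : ℤ) + 1) L →
      (∃ π, IsCK H X π ∧ MotivicLefschetz C L π) → HasSymmetricCK H X) ∧
    (∀ (X Y : 𝒱.Obj) (f : X ⟶ Y) (r : ℕ), Y.dim = X.dim + r → OntoBelow H f →
      ∀ D : C.A Y, C.Deg 1 D → ∀ c : ℚ, c ≠ 0 → C.push f 1 = c • D ^ r →
        (∃ π, IsCK H Y π ∧ MotivicLefschetz C (C.mulCorr D) π) → HasSymmetricCK H X) ∧
    (∀ X Y : 𝒱.Obj, HasSymmetricCK H X → HasSymmetricCK H Y → HasSymmetricCK H (X.prod Y)) ∧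
    (∀ (Z : 𝒱.Obj) (T : Type) [Fintype T] (W : T → 𝒱.Obj) (R : T → Finset ℕ)
      (a : ∀ t, ℕ → C.A (Z.prod (W t))) (b : ∀ t, ℕ → C.A ((W t).prod Z)),
      IsTwistSum C Z W R a b → (∀ t, HasSymmetricCK H (W t)) → HasSymmetricCK H Z) := by
  have h1 : ∀ (X : 𝒱.Obj) (π w : ℕ → C.A (X.prod X)), IsCK H X π → IsSymmetric C π w →
      ∀ j : ℕ, j ≤ 1 ∨ X.dim ≤ j + 1 → SatisfiesDIn H π j := by
    intro X π w hπ hs j hj
    rcases hj with hj | hj
    · exact dIn_low hP hπ hj
    · exact dIn_dual hP hπ hs 1 (fun j' h2 h3 => absurd h3 (by omega)) j hj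
  have h3 : ∀ (X : 𝒱.Obj) (π w : ℕ → C.A (X.prod X)), IsCK H X π → IsSymmetric C π w →
      X.dim ≤ 3 → ∀ j : ℕ, SatisfiesDIn H π j := by
    intro X π w hπ hs hX j
    exact h1 X π w hπ hs j (by omega)
  refine ⟨fun X π w hπ hs => ⟨h1 X π w hπ hs, h3 X π w hπ hs,
    fun m hm j hj => dIn_dual hP hπ hs m hm j hj,
    fun j hj => dIn_of_symmetric hP hπ hs j hj⟩, fun X hX => ⟨fun π π' hπ hπ' j hj =>
      dIn_congr hX hπ hπ' j hj, ?_⟩, fun X hX => hasSymmetricCK_curve hX,
    fun X L hL h => hasSymmetricCK_of_lefschetz hL h,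
    fun X Y f r hr hO D hD c hc hf h => hasSymmetricCK_section hD hc hr hf hO h,
    fun X Y hX hY => hX.prod hY, fun Z T _ W R a b h hW => hasSymmetricCK_sum h hW⟩
  rintro ⟨π, w, hπ, hs⟩
  intro π' hπ' j hj
  exact dIn_congr hX hπ hπ' j (h1 X π w hπ hs j (by omega))

end Pool.Agent.Results.MP_583472_ag.SymmetricDecompositions
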